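import Pool.Agent.helper90.FL.Spec

set_option autoImplicit false

namespace Pool.Agent.helper90.FL

open Finset Polynomial
open scoped Classical

theorem ORD_a (a b : Fin 3) (h : (if a = 1 then 0 else if a = 0 then 1 else 2 : ℕ) = (if b = 1 then 0 else if b = 0 then 1 else 2)) : a = b := by
  fin_cases a <;> fin_cases b <;> simp at h ⊢

theorem ORD_b (a : Fin 3) : (if a = 1 then 0 else if a = 0 then 1 else 2 : ℕ) < 3 := by
  split_ifs <;> omega

theorem ORD : ORD_stmt := by
  intro n _ ⟨a, i⟩ ⟨b, j⟩ h
  unfold ord at h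
  simp only at h
  have h1 := ORD_b a
  have h2 := ORD_b b
  have h3 : i.val = j.val := by omega
  have h4 : a = b := ORD_a a b (by omega)
  rw [h4, ZMod.val_injective n h3]

end Pool.Agent.helper90.FL

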